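import Mathlib

set_option autoImplicit false

namespace Pool.Agent.Results.MP_337ab5_co.ConvOne

open Equiv

/-- The moves are numbered `0, …, 2N-1`; move `m < N` writes `σ(m)`, move `N + i` writes `τ(i)`;
`w j` is the value written at move `j`. The value `v` is legal at move `m` if it lies in
`{0, …, N-1}` and has not been used in the same word. -/
def Legal (N m : ℕ) (w : ℕ → ℕ) (v : ℕ) : Prop :=
  v < N ∧ ∀ j < m, (j < N ↔ m < N) → w j ≠ v

/-- The two words are permutations generating the full symmetric group. -/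
def Gen (N : ℕ) (w : ℕ → ℕ) : Prop :=
  ∃ σ τ : Perm (Fin N), (∀ i, (σ i : ℕ) = w i) ∧ (∀ i, (τ i : ℕ) = w (N + i)) ∧
    Subgroup.closure {σ, τ} = ⊤

/-- Player `p` (`true` is A, `false` is B) can force a win from the position `w` with `k` moves
left, when `mover m` makes move number `m`. -/
def Wins (N : ℕ) (mover : ℕ → Bool) (p : Bool) : ℕ → (ℕ → ℕ) → Prop
  | 0, w => Gen N w ↔ p = true
  | k + 1, w =>
    if mover (2 * N - (k + 1)) = p then
      ∃ v, Legal N (2 * N - (k + 1)) w v ∧
        Wins N mover p k (Function.update w (2 * N - (k + 1)) v)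
    else
      ∀ v, Legal N (2 * N - (k + 1)) w v →
        Wins N mover p k (Function.update w (2 * N - (k + 1)) v)

/-- Convention I: A writes the first, third, fifth, … entry of each word. -/
def conv1 (N m : ℕ) : Bool := decide (m % N % 2 = 0)

lemma det (N : ℕ) (mover : ℕ → Bool) (k : ℕ) :
    ∀ w, Wins N mover false k w ↔ ¬ Wins N mover true k w := by
  induction k with
  | zero => intro w; simp [Wins]
  | succ k ih =>
    intro w
    simp only [Wins]
    cases mover (2 * N - (k + 1)) <;> simp [ih]

lemma strat (N : ℕ) (mover : ℕ → Bool) (I : ℕ → (ℕ → ℕ) → Prop)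
    (hA : ∀ m < 2 * N, ∀ w, I m w → mover m = true → ∀ v, Legal N m w v →
      I (m + 1) (Function.update w m v))
    (hB : ∀ m < 2 * N, ∀ w, I m w → mover m = false → ∃ v, Legal N m w v ∧
      I (m + 1) (Function.update w m v))
    (hE : ∀ w, I (2 * N) w → ¬ Gen N w) (k : ℕ) :
    k ≤ 2 * N → ∀ w, I (2 * N - k) w → Wins N mover false k w := by
  induction k with
  | zero => intro _ w h; simpa [Wins] using hE w h
  | succ k ih =>
    intro hk w h
    have e : 2 * N - k = 2 * N - (k + 1) + 1 := by omega
    simp only [Wins]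
    cases hm : mover (2 * N - (k + 1))
    · obtain ⟨v, h1, h2⟩ := hB _ (by omega) w h hm
      rw [if_pos rfl]
      exact ⟨v, h1, ih (by omega) _ (e ▸ h2)⟩
    · rw [if_neg (by simp)]
      intro v hv
      exact ih (by omega) _ (e ▸ hA _ (by omega) w h hm v hv)

def pa (x : ℕ) : ℕ := if x % 2 = 0 then x + 1 else x - 1

lemma pa_pa (x : ℕ) : pa (pa x) = x := by unfold pa; split_ifs <;> omega

lemma even_case (N : ℕ) (h4 : 3 ≤ N) (he : N % 2 = 0) :
    Wins N (conv1 N) false (2 * N) (fun _ => 0) := by
  have hc : ∀ m < 2 * N, m % N % 2 = m % 2 := by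
    intro m hm
    by_cases h : m < N
    · rw [Nat.mod_eq_of_lt h]
    · rw [show m = N + (m - N) by omega, Nat.add_mod_left, Nat.mod_eq_of_lt (a := m - N) (by omega)]
      omega
  refine strat N _ (fun m w => (∀ j < m, w j < N) ∧
    (∀ i < m, ∀ j < m, (i < N ↔ j < N) → w i = w j → i = j) ∧
    ∀ j < m, j % 2 = 1 → w j = pa (w (j - 1))) ?_ ?_ ?_ _ le_rfl _ (by simp)
  · rintro m hm w ⟨h1, h2, h3⟩ hv v ⟨l1, l2⟩
    simp only [conv1, hc m hm, decide_eq_true_eq] at hv
    refine ⟨fun j hj => ?_, fun i hi j hj hij => ?_, fun j hj ho => ?_⟩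
    · rw [Function.update_apply]
      split_ifs
      · exact l1
      · exact h1 j (by omega)
    · simp only [Function.update_apply]
      split_ifs with a b b
      · omega
      · intro e; exact absurd e.symm (l2 j (by omega) (by omega))
      · intro e; exact absurd e (l2 i (by omega) (by omega))
      · exact h2 i (by omega) j (by omega) hij
    · rw [Function.update_of_ne (by omega), Function.update_of_ne (by omega)]
      exact h3 j (by omega) ho
  · rintro m hm w ⟨h1, h2, h3⟩ hv
    simp only [conv1, hc m hm, decide_eq_false_iff_not] at hv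
    have l1 : pa (w (m - 1)) < N := by
      have := h1 (m - 1) (by omega)
      unfold pa; split_ifs <;> omega
    have l2 : ∀ j < m, (j < N ↔ m < N) → w j ≠ pa (w (m - 1)) := by
      intro j hj hb e
      by_cases ho : j % 2 = 1
      · have := h3 j hj ho
        rw [e] at this
        have e2 := congrArg pa this
        rw [pa_pa, pa_pa] at e2
        have := h2 (m - 1) (by omega) (j - 1) (by omega) (by omega) e2
        omega
      · by_cases hj' : j = m - 1
        · rw [hj'] at e
          unfold pa at e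
          split_ifs at e <;> omega
        · have := h3 (j + 1) (by omega) (by omega)
          rw [Nat.add_sub_cancel, e, pa_pa] at this
          have := h2 (j + 1) (by omega) (m - 1) (by omega) (by omega) this
          omega
    refine ⟨pa (w (m - 1)), ⟨l1, l2⟩, fun j hj => ?_, fun i hi j hj hij => ?_, fun j hj ho => ?_⟩
    · rw [Function.update_apply]
      split_ifs
      · exact l1
      · exact h1 j (by omega)
    · simp only [Function.update_apply]
      split_ifs with a b b
      · omega
      · intro e; exact absurd e.symm (l2 j (by omega) (by omega))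
      · intro e; exact absurd e (l2 i (by omega) (by omega))
      · exact h2 i (by omega) j (by omega) hij
    · rw [Function.update_of_ne (a := j - 1) (by omega), Function.update_apply]
      split_ifs with a
      · rw [a]
      · exact h3 j (by omega) ho
  · rintro w ⟨-, -, h3⟩ ⟨σ, τ, hσ, hτ, hcl⟩
    have hp : ∀ x : Fin N, pa x < N := fun x => by
      have := x.2
      unfold pa; split_ifs <;> omega
    let f : Fin N → Fin N := fun x => ⟨pa x, hp x⟩
    have hf : Function.Involutive f := fun x => Fin.ext (pa_pa x)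
    have h5 : ∀ j < 2 * N, w (pa j) = pa (w j) := by
      intro j hj
      by_cases ho : j % 2 = 0
      · have := h3 (j + 1) (by omega) (by omega)
        rw [Nat.add_sub_cancel] at this
        rw [← this, pa, if_pos ho]
      · rw [h3 j hj (by omega), pa_pa, pa, if_neg ho]
    have key : ∀ g ∈ Subgroup.closure {σ, τ}, g ∈ Subgroup.centralizer {hf.toPerm} := by
      apply (Subgroup.closure_le _).2
      rintro g (rfl | rfl)
      · rintro _ rfl
        ext x
        show pa (g x) = g (f x)
        rw [hσ, hσ, h5 _ (by have := x.2; omega)]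
      · rintro _ rfl
        ext x
        show pa (g x) = g (f x)
        rw [hτ, hτ, ← h5 _ (by have := x.2; omega)]
        congr 1
        show pa (N + x) = N + pa x
        unfold pa; split_ifs <;> omega
    have := key (swap ⟨1, by omega⟩ ⟨2, by omega⟩) (hcl ▸ Subgroup.mem_top _) _ rfl
    have := congrArg (fun g : Perm (Fin N) => (g ⟨0, by omega⟩ : ℕ)) this
    simp [f, pa, swap_apply_def] at this

lemma mv {N : ℕ} (σ : Perm (Fin N)) (i : Fin N) (v : ℕ) (hv : v < N)
    (h : ∀ j < i, (σ j : ℕ) ≠ v) :
    ∃ σ' : Perm (Fin N), (∀ j < i, σ' j = σ j) ∧ (σ' i : ℕ) = v ∧ (i.1 + 1 = N → σ' = σ) := by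
  have hj : i ≤ σ.symm ⟨v, hv⟩ := by
    by_contra hh
    exact h _ (not_le.1 hh) (by simp)
  refine ⟨σ * swap i (σ.symm ⟨v, hv⟩), fun j hji => ?_, by simp, fun e => ?_⟩
  · rw [Perm.mul_apply, swap_apply_of_ne_of_ne hji.ne (hji.trans_le hj).ne]
  · have : σ.symm ⟨v, hv⟩ = i := by
      apply Fin.ext
      have := (σ.symm ⟨v, hv⟩).2
      rw [Fin.le_def] at hj
      omega
    rw [this, swap_self]
    rfl

lemma mvB {N : ℕ} (σ : Perm (Fin N)) (i : Fin N) (hi : i.1 + 1 < N) :
    ∃ σ' : Perm (Fin N), (∀ j < i, σ' j = σ j) ∧ Perm.sign σ' = 1 := by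
  rcases Int.units_eq_one_or (Perm.sign σ) with h | h
  · exact ⟨σ, fun _ _ => rfl, h⟩
  · have hne : i ≠ ⟨i.1 + 1, hi⟩ := fun e => by simpa using congrArg Fin.val e
    refine ⟨σ * swap i ⟨i.1 + 1, hi⟩, fun j hj => ?_, by simp [h, hne]⟩
    rw [Perm.mul_apply, swap_apply_of_ne_of_ne hj.ne]
    intro e
    have := congrArg Fin.val e
    rw [Fin.lt_def] at hj
    simp at this
    omega

lemma odd_case (N : ℕ) (h3 : 3 ≤ N) (ho : N % 2 = 1) :
    Wins N (conv1 N) false (2 * N) (fun _ => 0) := by
  have hc : ∀ m, N ≤ m → m < 2 * N → m % N = m - N := by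
    intro m h hm
    rw [show m = N + (m - N) by omega, Nat.add_mod_left, Nat.mod_eq_of_lt (a := m - N) (by omega)]
    omega
  refine strat N _ (fun m w => ∃ σ τ : Perm (Fin N),
    (∀ i : Fin N, i.1 < m → (σ i : ℕ) = w i) ∧ (∀ i : Fin N, N + i.1 < m → (τ i : ℕ) = w (N + i)) ∧
    (N ≤ m + 1 → Perm.sign σ = 1) ∧ (2 * N ≤ m + 1 → Perm.sign τ = 1)) ?_ ?_ ?_ _ le_rfl _
    ⟨1, 1, by simp, by simp, by simp, by simp⟩
  · rintro m hm w ⟨σ, τ, h1, h2, s1, s2⟩ hv v ⟨l1, l2⟩
    by_cases hN : m < N
    · simp only [conv1, Nat.mod_eq_of_lt hN, decide_eq_true_eq] at hv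
      obtain ⟨σ', a1, a2, a3⟩ := mv σ ⟨m, hN⟩ v l1 (fun j hj => by
        rw [h1 j hj]; exact l2 j hj (by have := j.2; omega))
      refine ⟨σ', τ, fun i hi => ?_, fun i hi => by omega, fun hh => ?_, fun hh => by omega⟩
      · rw [Function.update_apply]
        split_ifs with e
        · rw [← a2]; congr 2; exact Fin.ext e
        · rw [a1 i (Fin.lt_def.2 (by simp; omega)), h1 i (by omega)]
      · rw [a3 (by simp; omega)]
        exact s1 (by omega)
    · simp only [conv1, hc m (by omega) hm, decide_eq_true_eq] at hv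
      obtain ⟨τ', a1, a2, a3⟩ := mv τ ⟨m - N, by omega⟩ v l1 (fun j hj => by
        have hj' : j.1 < m - N := hj
        rw [h2 j (by omega)]; exact l2 _ (by omega) (by omega))
      refine ⟨σ, τ', fun i hi => ?_, fun i hi => ?_, fun _ => s1 (by omega), fun hh => ?_⟩
      · have := i.2
        rw [Function.update_of_ne (by omega), h1 i (by omega)]
      · rw [Function.update_apply]
        split_ifs with e
        · rw [← a2]; congr 2; exact Fin.ext (by simp; omega)
        · rw [a1 i (Fin.lt_def.2 (by simp; omega)), h2 i (by omega)]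
      · rw [a3 (by simp; omega)]
        exact s2 (by omega)
  · rintro m hm w ⟨σ, τ, h1, h2, s1, s2⟩ hv
    by_cases hN : m < N
    · simp only [conv1, Nat.mod_eq_of_lt hN, decide_eq_false_iff_not] at hv
      obtain ⟨σ', a1, a2⟩ := mvB σ ⟨m, hN⟩ (by simp; omega)
      refine ⟨σ' ⟨m, hN⟩, ⟨(σ' _).2, fun j hj _ e => ?_⟩, σ', τ, fun i hi => ?_,
        fun i hi => by omega, fun _ => a2, fun hh => by omega⟩
      · rw [← h1 ⟨j, by omega⟩ hj, ← a1 _ (Fin.lt_def.2 hj)] at e
        have := congrArg Fin.val (σ'.injective (Fin.ext e))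
        simp at this
        omega
      · rw [Function.update_apply]
        split_ifs with e
        · congr 2; exact Fin.ext e
        · rw [a1 i (Fin.lt_def.2 (by simp; omega)), h1 i (by omega)]
    · simp only [conv1, hc m (by omega) hm, decide_eq_false_iff_not] at hv
      obtain ⟨τ', a1, a2⟩ := mvB τ ⟨m - N, by omega⟩ (by simp; omega)
      refine ⟨τ' ⟨m - N, by omega⟩, ⟨(τ' _).2, fun j hj hb e => ?_⟩, σ, τ', fun i hi => ?_,
        fun i hi => ?_, fun _ => s1 (by omega), fun _ => a2⟩
      · have e2 := h2 ⟨j - N, by omega⟩ (by simp; omega)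
        simp only [show N + (j - N) = j by omega] at e2
        rw [← e2, ← a1 _ (Fin.lt_def.2 (by simp; omega))] at e
        have := congrArg Fin.val (τ'.injective (Fin.ext e))
        simp at this
        omega
      · have := i.2
        rw [Function.update_of_ne (by omega), h1 i (by omega)]
      · rw [Function.update_apply]
        split_ifs with e
        · congr 2; exact Fin.ext (by simp; omega)
        · rw [a1 i (Fin.lt_def.2 (by simp; omega)), h2 i (by omega)]
  · rintro w ⟨σ, τ, h1, h2, s1, s2⟩ ⟨σ', τ', a1, a2, hcl⟩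
    have e1 : σ' = σ := by
      ext i
      rw [a1, h1 i (by have := i.2; omega)]
    have e2 : τ' = τ := by
      ext i
      rw [a2, h2 i (by have := i.2; omega)]
    have key : ∀ g ∈ Subgroup.closure {σ', τ'}, g ∈ alternatingGroup (Fin N) := by
      apply (Subgroup.closure_le _).2
      rintro g (rfl | rfl)
      · rw [e1]; exact Perm.mem_alternatingGroup.2 (s1 (by omega))
      · rw [e2]; exact Perm.mem_alternatingGroup.2 (s2 (by omega))
    have := key (swap ⟨0, by omega⟩ ⟨1, by omega⟩) (hcl ▸ Subgroup.mem_top _)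
    rw [Perm.mem_alternatingGroup, Perm.sign_swap (by simp)] at this
    exact absurd this (by decide)

lemma one : Wins 1 (conv1 1) true 2 (fun _ => 0) := by
  simp only [Wins, conv1, Legal]
  refine (if_pos (by decide)).mpr ⟨0, by simp, (if_pos (by decide)).mpr ⟨0, by simp, ?_⟩⟩
  simp only [iff_true]
  exact ⟨1, 1, by simp, by simp, Subsingleton.elim _ _⟩

lemma two : Wins 2 (conv1 2) true 4 (fun _ => 0) := by
  simp only [Wins, conv1, Legal]
  refine (if_pos (by decide)).mpr ⟨1, by simp, (if_neg (by decide)).mpr ?_⟩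
  rintro v ⟨h1, h2⟩
  have hv : v = 0 := by
    have := h2 0 (by norm_num) (by norm_num)
    simp at this
    omega
  subst hv
  refine (if_pos (by decide)).mpr ⟨0, ⟨by norm_num, fun j hj h => by omega⟩,
    (if_neg (by decide)).mpr ?_⟩
  rintro v ⟨h3, h4⟩
  have hv : v = 1 := by
    have := h4 2 (by norm_num) (by norm_num)
    simp at this
    omega
  subst hv
  simp only [iff_true]
  refine ⟨swap 0 1, 1, by decide, by decide, ?_⟩
  rw [eq_top_iff]
  intro g _
  have : ∀ g : Perm (Fin 2), g = swap 0 1 ∨ g = 1 := by decide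
  rcases this g with rfl | rfl
  · exact Subgroup.subset_closure (by simp)
  · exact Subgroup.one_mem _

theorem result (N : ℕ) (hN : 1 ≤ N) :
    (Wins N (conv1 N) true (2 * N) (fun _ => 0) ↔ N ≤ 2) ∧
    (Wins N (conv1 N) false (2 * N) (fun _ => 0) ↔ 3 ≤ N) := by
  have h : Wins N (conv1 N) true (2 * N) (fun _ => 0) ↔ N ≤ 2 := by
    constructor
    · intro h
      by_contra hh
      rcases Nat.mod_two_eq_zero_or_one N with e | e
      · exact (det _ _ _ _).1 (even_case N (by omega) e) h
      · exact (det _ _ _ _).1 (odd_case N (by omega) e) h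
    · intro h
      interval_cases N
      · exact one
      · exact two
  refine ⟨h, ?_⟩
  rw [det, h]
  omega

end Pool.Agent.Results.MP_337ab5_co.ConvOne
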